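import Pool.Agent.Lib_MP_aeefb1_pn.FinalAll
import Pool.Agent.Lib_MP_aeefb1_reg.Kummer

/-!
MP_aeefb1_nt: for every regular prime `n ≥ 7`, every odd prime `p` with `p` not congruent to `1`
modulo `n` and `p ^ (n - 1)` not congruent to `1` modulo `n ^ 2` (`p = n` is allowed), and every
`k ≥ 1`, the system `A + B = C`, `A B C = D ^ n`, `gcd (A, B, C) = p ^ k` has no solution in
positive integers.
-/

open NumberField

namespace Pool.Agent.Results.MP_aeefb1_nt.RegularAll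

theorem result (n : ℕ) (hn : n.Prime) (h7 : 7 ≤ n)
    (hcl : ¬ n ∣ classNumber (CyclotomicField n ℚ))
    (hB : ∀ i : ℕ, 1 ≤ i → 2 * i ≤ n - 3 → ¬ (n : ℤ) ∣ (bernoulli (2 * i)).num)
    (p : ℕ) (hp : p.Prime) (hp2 : p ≠ 2) (hp1 : ¬ p ≡ 1 [MOD n])
    (hw : ¬ p ^ (n - 1) ≡ 1 [MOD n ^ 2]) (k : ℕ) (_hk : 1 ≤ k) :
    ¬ ∃ A B C D : ℕ, 0 < A ∧ 0 < B ∧ 0 < C ∧ 0 < D ∧ A + B = C ∧ A * B * C = D ^ n ∧
      Nat.gcd A (Nat.gcd B C) = p ^ k := by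
  rintro ⟨A, B, C, D, hA, hB', -, -, h1, h2, h3⟩
  haveI : Fact n.Prime := ⟨hn⟩
  haveI : NeZero ((n : ℕ) : ℚ) := ⟨by exact_mod_cast hn.ne_zero⟩
  haveI : NeZero n := ⟨hn.ne_zero⟩
  haveI : IsCyclotomicExtension {n} ℚ (CyclotomicField n ℚ) :=
    CyclotomicField.isCyclotomicExtension n ℚ
  exact AER.final_all hn h7 hcl hB
    (fun u m hu => AER.kummer_lemma (by omega)
      (IsCyclotomicExtension.zeta_spec n ℚ (CyclotomicField n ℚ)) hB u m hu)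
    hp hp2 hp1 hw hA hB' h1 h2 h3

end Pool.Agent.Results.MP_aeefb1_nt.RegularAll
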